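import Pool.Agent.FlatsCount.Minor

/-!
# MP_62a602_co : Bonin's bound fails for hyperplanes, in every rank `r ≥ 3` and for all large `q`

Construction.  Let `F` be a field with `n` elements and attach to the point `(t,c)` of `F × F` the
vector `(1,t,…,t^{r-2},c)`.  The graphs of the polynomials of degree `< r-2` are uniform
hyperplanes of this linear matroid and any two of them share at most `r-3` points; relax all of
them at the same time (a set is independent if it is linearly independent or if it is contained in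
such a graph and has at most `r` elements).  The result is a simple rank-`r` matroid with no
`U_{2,2n-r+3}`-minor, and every `(r-1)`-subset of such a graph is a hyperplane.
-/

open Set Module Matroid Filter

namespace Pool.Agent.Results.MP_62a602_co.HyperplaneCount

/-- `M` has no loops and no two-element circuits. -/
def IsSimple {α : Type} (M : Matroid α) : Prop :=
  ∀ e ∈ M.E, ∀ f ∈ M.E, M.Indep {e, f}

/-- `M` has a minor isomorphic to the uniform matroid `U_{2,m}`. -/
def HasLineMinor {α : Type} (M : Matroid α) (m : ℕ) : Prop :=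
  ∃ N : Matroid α, N ≤m M ∧ N.E.encard = (m : ℕ∞) ∧ ∀ I ⊆ N.E, N.Indep I ↔ I.encard ≤ 2

/-- The number of rank-`k` flats of `M`. -/
noncomputable def numFlats {α : Type} (M : Matroid α) (k : ℕ) : ℕ :=
  {X : Set α | M.IsFlat X ∧ M.eRk X = (k : ℕ∞)}.ncard

/-- The Gaussian binomial coefficient `∏_{i<k} (q^{r-i}-1)/(q^{i+1}-1)` (used for `q ≥ 2`). -/
noncomputable def gauss (q r k : ℕ) : ℚ :=
  ∏ i ∈ Finset.range k, (((q : ℚ) ^ (r - i) - 1) / ((q : ℚ) ^ (i + 1) - 1))

lemma gauss_eq (q s : ℕ) (hq : 2 ≤ q) :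
    gauss q (s + 2) (s + 1) = ((q : ℚ) ^ (s + 2) - 1) / ((q : ℚ) - 1) := by
  unfold gauss
  rw [Finset.prod_div_distrib]
  have hpos : ∀ i : ℕ, ((q : ℚ) ^ (i + 1) - 1) ≠ 0 := by
    intro i
    have h1 : (1 : ℚ) < (q : ℚ) ^ (i + 1) := by
      apply one_lt_pow₀ _ (by omega)
      exact_mod_cast hq
    linarith
  have h1 : ∏ i ∈ Finset.range (s + 1), ((q : ℚ) ^ (s + 2 - i) - 1) =
      ∏ i ∈ Finset.range (s + 1), ((q : ℚ) ^ (i + 2) - 1) := by
    rw [← Finset.prod_range_reflect]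
    apply Finset.prod_congr rfl
    intro i hi
    rw [Finset.mem_range] at hi
    congr 2
    omega
  have h2 : ∏ i ∈ Finset.range s, ((q : ℚ) ^ (i + 2) - 1) ≠ 0 := by
    rw [Finset.prod_ne_zero_iff]
    intro i _
    exact hpos (i + 1)
  have h3 : ∏ i ∈ Finset.range (s + 1), ((q : ℚ) ^ (i + 1) - 1) =
      (∏ i ∈ Finset.range s, ((q : ℚ) ^ (i + 2) - 1)) * ((q : ℚ) - 1) := by
    rw [Finset.prod_range_succ']
    simp
  rw [h1, h3, Finset.prod_range_succ, mul_div_mul_left _ _ h2]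

lemma gauss_le (q s : ℕ) (hq : 2 ≤ q) : gauss q (s + 2) (s + 1) ≤ 2 * (q : ℚ) ^ (s + 1) := by
  have hq2 : (2 : ℚ) ≤ q := by exact_mod_cast hq
  rw [gauss_eq q s hq, div_le_iff₀ (by linarith)]
  have h1 : (0 : ℚ) < (q : ℚ) ^ (s + 1) := by positivity
  have h2 : (q : ℚ) ^ (s + 2) = (q : ℚ) ^ (s + 1) * q := pow_succ _ _
  rw [h2]
  nlinarith

/-- the arithmetic behind the choice of the field -/
lemma count_arith (s p q : ℕ) (h1 : 2 * s ≤ p) (h2 : q ≤ 4 * p) :
    q ^ (2 * s + 1) ≤ (4 ^ s * 8 ^ (s + 1) * (s + 1).factorial) * (p ^ s * p.choose (s + 1)) := by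
  have h3 : (p - s) ^ (s + 1) ≤ (s + 1).factorial * p.choose (s + 1) := by
    rw [← Nat.descFactorial_eq_factorial_mul_choose]
    have := Nat.pow_sub_le_descFactorial p (s + 1)
    have h4 : p + 1 - (s + 1) = p - s := by omega
    rwa [h4] at this
  have h4 : q ^ s ≤ 4 ^ s * p ^ s := by
    rw [← mul_pow]
    exact Nat.pow_le_pow_left h2 s
  have h5 : q ^ (s + 1) ≤ 8 ^ (s + 1) * (p - s) ^ (s + 1) := by
    rw [← mul_pow]
    apply Nat.pow_le_pow_left
    omega
  calc q ^ (2 * s + 1) = q ^ s * q ^ (s + 1) := by rw [← pow_add]; congr 1; ring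
    _ ≤ (4 ^ s * p ^ s) * (8 ^ (s + 1) * (p - s) ^ (s + 1)) := Nat.mul_le_mul h4 h5
    _ ≤ (4 ^ s * p ^ s) * (8 ^ (s + 1) * ((s + 1).factorial * p.choose (s + 1))) := by
        gcongr
    _ = _ := by ring

/-- **Bonin's bound on the number of rank-`k` flats fails for `k = r - 1`, for every rank `r ≥ 3`
and every sufficiently large `q`, by a factor of order `q^{r-2}`.** -/
theorem result (r : ℕ) (hr : 3 ≤ r) :
    ∃ c : ℚ, 0 < c ∧ ∃ q₀ : ℕ, ∀ q : ℕ, q₀ ≤ q →
      ∃ (E : Type) (M : Matroid E),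
        M.Finite ∧ IsSimple M ∧ M.eRank = (r : ℕ∞) ∧ ¬ HasLineMinor M (q + 2) ∧
        gauss q r (r - 1) < (numFlats M (r - 1) : ℚ) ∧
        c * (q : ℚ) ^ (r - 2) * gauss q r (r - 1) ≤ (numFlats M (r - 1) : ℚ) := by
  obtain ⟨s, rfl⟩ : ∃ s, r = s + 2 := ⟨r - 2, by omega⟩
  have hs : 1 ≤ s := by omega
  set K : ℕ := 4 ^ s * 8 ^ (s + 1) * (s + 1).factorial with hK
  have hK0 : 0 < K := by positivity
  refine ⟨1 / (2 * K), by positivity, max (8 * s + 8) (2 * K + 1), fun q hq => ?_⟩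
  have hq1 : 8 * s + 8 ≤ q := (le_max_left _ _).trans hq
  have hq2 : 2 * K + 1 ≤ q := (le_max_right _ _).trans hq
  obtain ⟨p, hp, hp1, hp2⟩ := Nat.exists_prime_lt_and_le_two_mul (q / 4) (by omega)
  have : Fact p.Prime := ⟨hp⟩
  have hcard : Fintype.card (ZMod p) = p := ZMod.card p
  refine ⟨ZMod p × ZMod p, FlatsCount.relM (ZMod p) s, inferInstance, ?_, ?_, ?_, ?_⟩
  · intro e _ f _
    exact FlatsCount.indep_pair hs e f
  · exact FlatsCount.eRank_relM (by rw [hcard]; omega)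
  · rintro ⟨N, hN, hE, hI⟩
    exact FlatsCount.minor_bound (F := ZMod p) (s := s) (m := q + 2) (by rw [hcard]; omega)
      (by rw [hcard]; omega) N hN hE hI
  · have hcount : p ^ s * p.choose (s + 1) ≤ numFlats (FlatsCount.relM (ZMod p) s) (s + 1) := by
      have := FlatsCount.flats_count (F := ZMod p) s
      rwa [hcard] at this
    have hmain : q ^ (2 * s + 1) ≤ K * numFlats (FlatsCount.relM (ZMod p) s) (s + 1) :=
      (count_arith s p q (by omega) (by omega)).trans (Nat.mul_le_mul_left _ hcount)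
    set W := numFlats (FlatsCount.relM (ZMod p) s) (s + 1) with hW
    have hr1 : s + 2 - 1 = s + 1 := by omega
    have hr2 : s + 2 - 2 = s := by omega
    rw [hr1, hr2]
    have hg := gauss_le q s (by omega)
    have hmainQ : (q : ℚ) ^ (2 * s + 1) ≤ (K : ℚ) * (W : ℚ) := by exact_mod_cast hmain
    have hqQ : (0 : ℚ) < q := by
      have : 0 < q := by omega
      exact_mod_cast this
    have hKQ : (0 : ℚ) < (K : ℚ) := by exact_mod_cast hK0
    have hpow : (q : ℚ) ^ (2 * s + 1) = (q : ℚ) ^ s * (q : ℚ) ^ (s + 1) := by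
      rw [← pow_add]; congr 1; ring
    constructor
    · refine lt_of_le_of_lt hg ?_
      have h1 : (2 * K : ℚ) < (q : ℚ) ^ s := by
        have h2 : (2 * K + 1 : ℚ) ≤ q := by exact_mod_cast hq2
        have h3 : (q : ℚ) ≤ (q : ℚ) ^ s := by
          apply le_self_pow₀ _ (by omega)
          have : 1 ≤ q := by omega
          exact_mod_cast this
        linarith
      have h4 : (0 : ℚ) < (q : ℚ) ^ (s + 1) := by positivity
      have h5 : (K : ℚ) * (2 * (q : ℚ) ^ (s + 1)) < (K : ℚ) * W := by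
        calc (K : ℚ) * (2 * (q : ℚ) ^ (s + 1)) = (2 * K) * (q : ℚ) ^ (s + 1) := by ring
          _ < (q : ℚ) ^ s * (q : ℚ) ^ (s + 1) := by
              exact mul_lt_mul_of_pos_right h1 h4
          _ = (q : ℚ) ^ (2 * s + 1) := hpow.symm
          _ ≤ _ := hmainQ
      exact lt_of_mul_lt_mul_left h5 hKQ.le
    · have h1 : (q : ℚ) ^ s * gauss q (s + 2) (s + 1) ≤ 2 * ((K : ℚ) * W) := by
        calc (q : ℚ) ^ s * gauss q (s + 2) (s + 1) ≤ (q : ℚ) ^ s * (2 * (q : ℚ) ^ (s + 1)) := by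
              apply mul_le_mul_of_nonneg_left hg (by positivity)
          _ = 2 * (q : ℚ) ^ (2 * s + 1) := by rw [hpow]; ring
          _ ≤ _ := by linarith
      rw [mul_assoc, one_div, inv_mul_le_iff₀ (by positivity)]
      linarith

end Pool.Agent.Results.MP_62a602_co.HyperplaneCount
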